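import Mathlib

/-!
# Vertex stabilisers of actions on locally finite graphs are commensurated
-/

set_option autoImplicit false

open Set

namespace Pool.Agent.V7H77.CK

variable {V : Type} {T : SimpleGraph V}

lemma ball_finite (hlf : ∀ v, (T.neighborSet v).Finite) (n : ℕ) :
    ∀ v, {w | ∃ p : T.Walk v w, p.length = n}.Finite := by
  induction n with
  | zero =>
    intro v
    refine (Set.finite_singleton v).subset ?_
    rintro w ⟨p, hp⟩
    exact (SimpleGraph.Walk.eq_of_length_eq_zero hp).symm
  | succ n ih =>
    intro v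
    refine ((hlf v).biUnion fun u _ => ih u).subset ?_
    rintro w ⟨p, hp⟩
    cases p with
    | nil => simp at hp
    | @cons _ u _ h q =>
      rw [SimpleGraph.Walk.length_cons] at hp
      exact Set.mem_biUnion (x := u) h ⟨q, by omega⟩

variable {G : Type} [Group G] [MulAction G V]

lemma orbit_finite (hlf : ∀ v, (T.neighborSet v).Finite) (hc : T.Preconnected)
    (hact : ∀ (g : G) (u v : V), T.Adj u v → T.Adj (g • u) (g • v)) (v w : V) :
    (MulAction.orbit (MulAction.stabilizer G v) w).Finite := by
  obtain ⟨p⟩ := hc v w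
  refine (ball_finite hlf p.length v).subset ?_
  rintro _ ⟨k, rfl⟩
  have hk : (k : G) • v = v := k.2
  let f : T →g T := ⟨fun x => (k : G) • x, fun {a b} h => hact k a b h⟩
  have hv : f v = v := hk
  refine ⟨(p.map f).copy hv rfl, ?_⟩
  rw [SimpleGraph.Walk.length_copy, SimpleGraph.Walk.length_map]

end Pool.Agent.V7H77.CK
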