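import Pool.Agent.V7H57.RK.Ab

/-!
# Intersections of conjugates of a convex cocompact subgroup

`CI K F` is the intersection of the conjugates `h K h⁻¹`, `h ∈ F`.
-/

set_option autoImplicit false

open Metric Set Filter Topology
open Pool.Agent.TH60.FP Pool.Agent.TH60.FP.Strip Pool.Agent.Y34.HB Pool.Agent.Y34.EL
open Pool.Agent.T6.H46.RR Pool.Agent.T6.H67.TA Pool.Agent.T6.H46.RC Pool.Agent.V7H57.RK

namespace Pool.Agent.V7H77.CK

variable {X : Type} [MetricSpace X] {G : Type} [Group G] [MulAction G X]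

/-- the intersection of the conjugates `h K h⁻¹`, `h ∈ F` -/
def CI (K : Subgroup G) (F : Set G) : Subgroup G where
  carrier := {s | ∀ h ∈ F, h⁻¹ * s * h ∈ K}
  one_mem' := by intro h _; simp
  mul_mem' := by
    intro a b ha hb h hh
    have e : h⁻¹ * (a * b) * h = (h⁻¹ * a * h) * (h⁻¹ * b * h) := by group
    rw [e]; exact K.mul_mem (ha h hh) (hb h hh)
  inv_mem' := by
    intro a ha h hh
    have e : h⁻¹ * a⁻¹ * h = (h⁻¹ * a * h)⁻¹ := by group
    rw [e]; exact K.inv_mem (ha h hh)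

lemma mem_CI {K : Subgroup G} {F : Set G} {s : G} : s ∈ CI K F ↔ ∀ h ∈ F, h⁻¹ * s * h ∈ K :=
  Iff.rfl

lemma CI_one (K : Subgroup G) : CI K {1} = K := by
  ext s
  simp [mem_CI]

lemma CI_anti (K : Subgroup G) {F F' : Set G} (h : F ⊆ F') : CI K F' ≤ CI K F :=
  fun _ hs a ha => hs a (h ha)

/-- adding the translates by one element -/
lemma mem_CI_step {K : Subgroup G} {F : Set G} (g s : G) :
    s ∈ CI K (F ∪ (fun h => g * h) '' F) ↔ s ∈ CI K F ∧ g⁻¹ * s * g ∈ CI K F := by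
  constructor
  · intro hs
    refine ⟨fun h hh => hs h (Or.inl hh), fun h hh => ?_⟩
    have h1 := hs (g * h) (Or.inr ⟨h, hh, rfl⟩)
    have e : (g * h)⁻¹ * s * (g * h) = h⁻¹ * (g⁻¹ * s * g) * h := by group
    rwa [e] at h1
  · rintro ⟨h1, h2⟩ h (hh | ⟨a, ha, rfl⟩)
    · exact h1 h hh
    · have e : (g * a)⁻¹ * s * (g * a) = a⁻¹ * (g⁻¹ * s * g) * a := by group
      show (g * a)⁻¹ * s * (g * a) ∈ K
      rw [e]; exact h2 a ha

/-- `L ∩ g L g⁻¹` has finite index in `L` -/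
def Fi (L : Subgroup G) (g : G) : Prop := (CI L {1, g}).relIndex L ≠ 0

lemma CI_pair (L : Subgroup G) (g s : G) : s ∈ CI L {1, g} ↔ s ∈ L ∧ g⁻¹ * s * g ∈ L := by
  rw [mem_CI]
  simp

/-- a cocompact subgroup has finite index -/
lemma index_univ (hG : Geo X G) {L : Subgroup G} {B : Set X} (hB : CC L B) (hall : ∀ x, x ∈ B) :
    L.index ≠ 0 := by
  have := hG.isom
  obtain ⟨o, ho⟩ := hB.ne
  obtain ⟨D, hD0, hD⟩ := cc_near hG hB ho
  have hF := finite_short hG o D
  have hfin : (univ : Set (G ⧸ L)).Finite := by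
    refine (hF.image (fun s : G => (s : G ⧸ L))).subset ?_
    intro q _
    obtain ⟨f, rfl⟩ := QuotientGroup.mk_surjective q
    obtain ⟨k, hk, hk'⟩ := hD (f⁻¹ • o) (hall _)
    refine ⟨f * k, ?_, ?_⟩
    · show dist o ((f * k) • o) ≤ D
      rw [mul_smul, ← dist_smul f⁻¹, inv_smul_smul]
      exact hk'
    · show ((f * k : G) : G ⧸ L) = (f : G ⧸ L)
      rw [QuotientGroup.eq]
      have e : (f * k)⁻¹ * f = k⁻¹ := by group
      rw [e]
      exact L.inv_mem hk
  have : Finite (G ⧸ L) := Set.finite_univ_iff.1 hfin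
  exact Subgroup.index_ne_zero_of_finite

/-- **Commensurated convex cocompact subgroups.** -/
theorem comm (hG : Geo X G) (hGC : GC X) {L : Subgroup G} {B : Set X} (hB : CC L B)
    (hL : ∀ g, Fi L g) : (L : Set G).Finite ∨ L.index ≠ 0 ∨ Splits B L := by
  have := hG.isom
  by_cases hfin : (L : Set G).Finite
  · exact Or.inl hfin
  right
  obtain ⟨B₀, hsub, h₀, h | h⟩ := split_of_bd hG hGC hB
    (fun g => bd_of_index hG hB (hL g) (fun s hs => ((CI_pair L g s).1 hs).2))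
  · exact Or.inl (index_univ hG h₀ h)
  · right
    refine ⟨B₀, hsub, h₀, ?_, h⟩
    rw [Set.nontrivial_coe_sort]
    by_contra hcon
    rw [Set.not_nontrivial_iff] at hcon
    obtain ⟨z, hz⟩ := h₀.ne
    refine hfin ((finite_short hG z 0).subset fun s hs => ?_)
    have h1 : s • z = z := hcon (h₀.inv s hs z hz) hz
    show dist z (s • z) ≤ 0
    rw [h1, dist_self]

/-- every descending chain of finite intersections of conjugates has a step of finite index -/
def Chn (K : Subgroup G) : Prop := ∀ F : ℕ → Set G, (∀ n, (F n).Finite) → (∀ n, 1 ∈ F n) →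
  (∀ n, F n ⊆ F (n + 1)) → ∃ n, (CI K (F (n + 1))).relIndex (CI K (F n)) ≠ 0

lemma exists_comm (hG : Geo X G) {K : Subgroup G} {B : Set X} (hB : CC K B) (hch : Chn K) :
    ∃ F : Set G, F.Finite ∧ 1 ∈ F ∧ (∃ B' : Set X, B' ⊆ B ∧ CC (CI K F) B') ∧
      ∀ g, Fi (CI K F) g := by
  classical
  by_contra hcon
  push Not at hcon
  let P : Set G → Prop := fun F => F.Finite ∧ 1 ∈ F ∧ ∃ B' : Set X, B' ⊆ B ∧ CC (CI K F) B'
  have hstep : ∀ F : {F : Set G // P F}, ∃ g, ¬ Fi (CI K F.1) g := by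
    rintro ⟨F, h1, h2, h3⟩
    exact hcon F h1 h2 h3
  choose g hg using hstep
  have hnext : ∀ F : {F : Set G // P F}, P (F.1 ∪ (fun h => g F * h) '' F.1) := by
    rintro ⟨F, h1, h2, B', hB', hcc⟩
    refine ⟨h1.union (h1.image _), Or.inl h2, ?_⟩
    obtain ⟨B'', h3, h4⟩ := cc_inter hG hcc (g ⟨F, h1, h2, B', hB', hcc⟩)
      (L := CI K (F ∪ (fun h => g ⟨F, h1, h2, B', hB', hcc⟩ * h) '' F))
      (fun s => mem_CI_step _ _)
    exact ⟨B'', h3.trans hB', h4⟩
  let nx : {F : Set G // P F} → {F : Set G // P F} := fun F => ⟨_, hnext F⟩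
  let F₀ : {F : Set G // P F} := ⟨{1}, Set.finite_singleton _, rfl, B, le_rfl, by
    rw [CI_one]; exact hB⟩
  let S : ℕ → {F : Set G // P F} := fun n => nx^[n] F₀
  have hS : ∀ n, S (n + 1) = nx (S n) := fun n => Function.iterate_succ_apply' nx n F₀
  obtain ⟨n, hn⟩ := hch (fun n => (S n).1) (fun n => (S n).2.1) (fun n => (S n).2.2.1) (fun n => by
    show (S n).1 ⊆ (S (n + 1)).1
    rw [hS]; exact Set.subset_union_left)
  have h1 := hg (S n)
  have hn' : (CI K (S (n + 1)).1).relIndex (CI K (S n).1) ≠ 0 := hn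
  rw [hS] at hn'
  have e : CI K (nx (S n)).1 = CI (CI K (S n).1) {1, g (S n)} := by
    ext s
    rw [CI_pair]
    exact mem_CI_step _ _
  rw [e] at hn'
  exact h1 hn'

/-- **Main theorem.** -/
theorem main (hG : Geo X G) (hGC : GC X) {K : Subgroup G} {B : Set X} (hB : CC K B)
    (hch : Chn K) : ∃ F : Set G, F.Finite ∧ 1 ∈ F ∧ (∀ g, Fi (CI K F) g) ∧
      ((CI K F : Set G).Finite ∨ (CI K F).index ≠ 0 ∨ Splits B (CI K F)) := by
  obtain ⟨F, h1, h2, ⟨B', hB', hcc⟩, hF⟩ := exists_comm hG hB hch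
  refine ⟨F, h1, h2, hF, ?_⟩
  rcases comm hG hGC hcc hF with h | h | ⟨B₀, h3, h4, h5, h6⟩
  · exact Or.inl h
  · exact Or.inr (Or.inl h)
  · exact Or.inr (Or.inr ⟨B₀, h3.trans hB', h4, h5, h6⟩)

/-- commensurated subgroups satisfy the chain condition, and all finite intersections have finite
index -/
lemma CI_fin_of_comm {K : Subgroup G} (hK : ∀ g, Fi K g) {F : Set G} (hF : F.Finite) :
    (K ⊓ CI K F).relIndex K ≠ 0 := by
  classical
  induction F, hF using Set.Finite.induction_on with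
  | empty =>
    have e : K ⊓ CI K ∅ = K := by
      ext s; simp [mem_CI]
    rw [e, Subgroup.relIndex_self]; exact one_ne_zero
  | @insert a F _ _ ih =>
    have e : K ⊓ CI K (insert a F) = (K ⊓ CI K F) ⊓ CI K {1, a} := by
      ext s
      simp only [Subgroup.mem_inf, mem_CI, Set.mem_insert_iff, Set.mem_singleton_iff,
        forall_eq_or_imp, forall_eq]
      constructor
      · rintro ⟨h1, h2, h3⟩
        exact ⟨⟨h1, h3⟩, by simpa using h1, h2⟩
      · rintro ⟨⟨h1, h3⟩, -, h2⟩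
        exact ⟨h1, h2, h3⟩
    rw [e]
    exact Subgroup.relIndex_inf_ne_zero ih (hK a)

/-- finitely generated virtually abelian subgroups satisfy the chain condition -/
lemma chn_ab {A' A : Subgroup G} (hfin : A'.relIndex A ≠ 0) (hfg : A'.FG)
    (hcomm : ∀ a ∈ A', ∀ b ∈ A', a * b = b * a) : Chn A := by
  intro F _ h1 hF
  refine chain_ab hfin hfg hcomm (fun n => CI A (F n)) ?_ (fun n => CI_anti A (hF n))
  have h2 : CI A (F 0) ≤ CI A {1} := CI_anti A (by simpa using h1 0)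
  rwa [CI_one] at h2

end Pool.Agent.V7H77.CK
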