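import Pool.Agent.T6.H46.RC.Par4

/-!
# The splitting along a commensurated convex cocompact subgroup is preserved by the group
-/

set_option autoImplicit false

open Metric Set Filter Topology
open Pool.Agent.TH60.FP Pool.Agent.TH60.FP.Strip Pool.Agent.Y34.HB Pool.Agent.Y34.EL
open Pool.Agent.T6.H46.RR Pool.Agent.T6.H46.RC

namespace Pool.Agent.V7H77.CK

variable {X : Type} [MetricSpace X] {G : Type} [Group G] [MulAction G X]

/-- the shift of the translate `g B` -/
lemma exists_tau (hG : Geo X G) {K : Subgroup G} {B : Set X} (hB : CC K B)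
    (hM : @Mn K _ B _ (bact hB)) (hbd : ∀ g : G, Bd B g) (g : G) (y : B) :
    ∃ τ : B → B, Isometry τ ∧ Function.Surjective τ ∧
      @Cp B _ X _ K _ (bact hB) _ Subtype.val (fun z => g • (τ z : X)) ∧
      ∀ (a : K) (ha : a ∈ IK K g) (z : B), τ ((bact hB).smul a z) =
        (bact hB).smul (⟨g⁻¹ * a * g, mem_IK.1 ha⟩ : K) (τ z) := by
  have := hG.isom
  have := hG.proper
  letI := bact hB
  have hGB := geo_sub hG hB
  have := hGB.proper
  have := hGB.isom
  have hY := hGB.cn
  have hX := hG.cn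
  have hι : Isometry (Subtype.val : B → X) := isometry_subtype_coe
  have hγ : Isometry (fun y : B => g • (y : X)) := (isometry_smul X g).comp hι
  have hrι : range (Subtype.val : B → X) = B := Subtype.range_coe
  obtain ⟨τ, hτ, hτs, hw0, hd⟩ := pair hX hY hι hγ (w := infDist (y : X)
      (range (fun y : B => g • (y : X)))) (w' := infDist (g • (y : X)) (range (Subtype.val : B → X)))
    (fun x => by
      refine hM.const' hY (index_IK hG hB (hbd g))
        ((continuous_infDist_pt _).comp hι.continuous) (cvx_infDist hX hY hι hγ)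
        (fun _ => infDist_nonneg) ?_ x y
      intro a ha z
      show infDist ((a : G) • (z : X)) (range (fun y : B => g • (y : X))) =
        infDist (z : X) (range (fun y : B => g • (y : X)))
      rw [infDist_range, infDist_range]
      exact ph_inv hB (mem_IK.1 ha) _)
    (fun x => by
      refine hM.const' hY (f := fun x : B => infDist (g • (x : X)) (range (Subtype.val : B → X)))
        (index_IK hG hB (hbd g⁻¹))
        ((continuous_infDist_pt _).comp hγ.continuous) (cvx_infDist hX hY hγ hι)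
        (fun _ => infDist_nonneg) ?_ x y
      intro a ha z
      show infDist (g • (a : G) • (z : X)) (range (Subtype.val : B → X)) =
        infDist (g • (z : X)) (range (Subtype.val : B → X))
      rw [hrι]
      have h1 := ph_inv hB (h := g⁻¹) (mem_IK.1 ha) (z : X)
      unfold ph at h1
      rw [inv_inv] at h1
      exact h1) y
  set w := infDist (y : X) (range (fun y : B => g • (y : X))) with hw
  have heq : ∀ (a : K) (ha : a ∈ IK K g) (z : B), τ (a • z) =
      (⟨g⁻¹ * a * g, mem_IK.1 ha⟩ : K) • τ z := by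
    intro a ha z
    have h1 := hd (a • z) ((⟨g⁻¹ * a * g, mem_IK.1 ha⟩ : K) • τ z)
    have h2 := hd z (τ z)
    have e1 : g • (((⟨g⁻¹ * a * g, mem_IK.1 ha⟩ : K) • τ z : B) : X) =
        (a : G) • g • (τ z : X) := by
      show g • (g⁻¹ * (a : G) * g) • (τ z : X) = _
      rw [smul_smul, smul_smul]; congr 1; group
    have e2 : dist ((a • z : B) : X) (g • (((⟨g⁻¹ * a * g, mem_IK.1 ha⟩ : K) • τ z : B) : X)) =
        dist (z : X) (g • (τ z : X)) := by
      rw [e1]
      show dist ((a : G) • (z : X)) ((a : G) • g • (τ z : X)) = _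
      rw [dist_smul]
    rw [e2, h2, dist_self] at h1
    have h3 : dist (τ (a • z)) ((⟨g⁻¹ * a * g, mem_IK.1 ha⟩ : K) • τ z) ^ 2 = 0 := by linarith
    exact dist_eq_zero.1 (pow_eq_zero_iff two_ne_zero |>.1 h3)
  refine ⟨τ, hτ, hτs, ⟨hγ.comp hτ, ?_, IK K g, index_IK hG hB (hbd g), ?_⟩, heq⟩
  · intro x z v
    have h1 := hd x (τ z)
    have h2 := hd v (τ v)
    rw [hτ.dist_eq] at h1
    rw [dist_self] at h2
    show dist (x : X) (g • (τ z : X)) ^ 2 = dist (v : X) (g • (τ v : X)) ^ 2 + dist x z ^ 2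
    rw [h1, h2]; ring
  · intro a ha z
    show g • (τ (a • z) : X) = (a : G) • g • (τ z : X)
    rw [heq a ha z]
    show g • (g⁻¹ * (a : G) * g) • (τ z : X) = _
    rw [smul_smul, smul_smul]; congr 1; group

/-- the elements `a` of `K` with `g⁻¹ a g` in a subgroup of finite index of `K` -/
lemma exists_twist {K : Subgroup G} {g : G} (hg : (IK K g).index ≠ 0) {A : Subgroup K}
    (hA : A.index ≠ 0) : ∃ A' : Subgroup K, A'.index ≠ 0 ∧ ∀ a ∈ A', ∃ ha : a ∈ IK K g,
      (⟨g⁻¹ * a * g, mem_IK.1 ha⟩ : K) ∈ A := by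
  let c : IK K g →* K :=
    { toFun := fun a => ⟨g⁻¹ * ((a : K) : G) * g, mem_IK.1 a.2⟩
      map_one' := by
        apply Subtype.ext
        show g⁻¹ * (((1 : IK K g) : K) : G) * g = 1
        simp
      map_mul' := by
        intro a b
        apply Subtype.ext
        show g⁻¹ * (((a * b : IK K g) : K) : G) * g =
          (g⁻¹ * ((a : K) : G) * g) * (g⁻¹ * ((b : K) : G) * g)
        rw [Subgroup.coe_mul, Subgroup.coe_mul]; group }
  have h1 : (A.comap c).index ≠ 0 := by
    rw [Subgroup.index_comap]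
    exact fun h => hA (by
      rw [← Subgroup.relIndex_top_right]
      exact Subgroup.relIndex_eq_zero_of_le_right le_top h)
  refine ⟨(A.comap c).map (IK K g).subtype, ?_, ?_⟩
  · rw [Subgroup.index_map_subtype]
    exact mul_ne_zero h1 hg
  · rintro _ ⟨a, ha, rfl⟩
    exact ⟨a.2, ha⟩

/-- **Splitting, equivariant form.** -/
theorem split_eq (hG : Geo X G) (hGC : GC X) {K : Subgroup G} {B : Set X} (hB : CC K B)
    (hbd : ∀ g : G, Bd B g) : ∃ B₀ : Set X, B₀ ⊆ B ∧ CC K B₀ ∧ ((∀ x, x ∈ B₀) ∨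
      ∃ (Z : Type) (_ : MetricSpace Z) (_ : Nontrivial Z) (e : X ≃ Z × B₀),
      (∀ x x' : X, dist x x' ^ 2 = dist (e x).1 (e x').1 ^ 2 + dist (e x).2 (e x').2 ^ 2) ∧
      ∀ g : G, ∃ (a : Z → Z) (b : B₀ → B₀), ∀ x, e (g • x) = (a (e x).1, b (e x).2)) := by
  obtain ⟨B₀, hsub, h₀, hM⟩ := exists_minimal hB
  refine ⟨B₀, hsub, h₀, ?_⟩
  have hbd₀ : ∀ g : G, Bd B₀ g := fun g => (hbd g).restrict hG hB h₀ hsub
  have := hG.isom
  have := hG.proper
  letI := bact h₀
  have hGB := geo_sub hG h₀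
  have := hGB.proper
  have := hGB.isom
  have hY := hGB.cn
  have hX := hG.cn
  have hι : Isometry (Subtype.val : B₀ → X) := isometry_subtype_coe
  have : IsIsometricSMul K X := ⟨fun k x y => edist_smul_left (k : G) x y⟩
  obtain ⟨o, ho⟩ := h₀.ne
  obtain ⟨C, hC, hcov⟩ := hG.cc
  obtain ⟨D, hD⟩ := hC.isBounded.subset_closedBall o
  have hcl := closure_copies hX hY hM hGC hι (fun k y => rfl) ⟨o, ho⟩ (D := D) (by
    intro x
    obtain ⟨g, hg⟩ := hcov x
    have h1 := mem_closedBall.1 (hD hg)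
    rw [← dist_smul g⁻¹, inv_smul_smul] at h1
    refine (infDist_le_dist_of_mem ?_).trans h1
    exact exists_copy hG h₀ hM hbd₀ g⁻¹ ⟨o, ho⟩)
  have eι : ∀ (k : K) (y : B₀), ((k • y : B₀) : X) = k • (y : X) := fun k y => rfl
  let o' : B₀ := ⟨o, ho⟩
  let _ : MetricSpace (ZZ K (Subtype.val : B₀ → X)) := ZZm hX hY hM o'
  let F : ZZ K (Subtype.val : B₀ → X) × B₀ → X := fun p => p.1.1 p.2
  have hF : ∀ p p' : ZZ K (Subtype.val : B₀ → X) × B₀,
      dist (F p) (F p') ^ 2 = dist p.1 p'.1 ^ 2 + dist p.2 p'.2 ^ 2 :=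
    fun p p' => p.1.2.py hX hY hM p'.1.2 p.2 p'.2 o'
  have hinj : Function.Injective F := by
    intro p p' h
    have h1 := hF p p'
    rw [h, dist_self] at h1
    have h2 := sq_nonneg (dist p.1 p'.1)
    have h3 := sq_nonneg (dist p.2 p'.2)
    have h4 : dist p.1 p'.1 ^ 2 = 0 := by nlinarith
    have h5 : dist p.2 p'.2 ^ 2 = 0 := by nlinarith
    exact Prod.ext (dist_eq_zero.1 (pow_eq_zero_iff two_ne_zero |>.1 h4))
      (dist_eq_zero.1 (pow_eq_zero_iff two_ne_zero |>.1 h5))
  have hsurj : ∀ x : X, ∃ (a : ZZ K (Subtype.val : B₀ → X)) (y : B₀), a.1 y = x := by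
    intro x
    obtain ⟨φ, hφ, y, hy⟩ := exists_lcp hX hY hM (ι := (Subtype.val : B₀ → X)) (K := K) (x := x)
      (by rw [hcl]; trivial)
    exact ⟨⟨φ, hφ⟩, y, hy⟩
  have hbij : Function.Bijective F := ⟨hinj, fun x => by
    obtain ⟨a, t, h⟩ := hsurj x
    exact ⟨(a, t), h⟩⟩
  have hιc : Cp K (Subtype.val : B₀ → X) Subtype.val :=
    ⟨hι, py_self hι, ⊤, by simp, fun a _ => eι a⟩
  rcases subsingleton_or_nontrivial (ZZ K (Subtype.val : B₀ → X)) with hs | hn
  · left
    intro x
    obtain ⟨a, t, h⟩ := hsurj x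
    have h2 : a = ⟨Subtype.val, fun _ => Subtype.val, fun _ => hιc, fun _ => tendsto_const_nhds⟩ :=
      Subsingleton.elim _ _
    rw [h2] at h
    rw [← h]; exact t.2
  · right
    refine ⟨ZZ K (Subtype.val : B₀ → X), inferInstance, hn, (Equiv.ofBijective F hbij).symm,
      fun x x' => ?_, fun g => ?_⟩
    · have h1 := hF ((Equiv.ofBijective F hbij).symm x) ((Equiv.ofBijective F hbij).symm x')
      have e : ∀ z, F ((Equiv.ofBijective F hbij).symm z) = z := fun z =>
        (Equiv.ofBijective F hbij).apply_symm_apply z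
      rw [e, e] at h1
      exact h1
    · obtain ⟨τ, hτ, hτs, hψ, hτe⟩ := exists_tau hG h₀ hM hbd₀ g o'
      have hcp : ∀ φ : B₀ → X, Cp K (Subtype.val : B₀ → X) φ →
          Cp K (Subtype.val : B₀ → X) (fun y => g • φ (τ y)) := by
        rintro φ ⟨h1, h2, A, hA, h3⟩
        obtain ⟨A', hA', hA2⟩ := exists_twist (index_IK hG h₀ (hbd₀ g)) hA
        have i1 : Isometry (fun y => g • φ (τ y)) := (isometry_smul X g).comp (h1.comp hτ)
        have i2 : ∀ a ∈ A', ∀ y, g • φ (τ (a • y)) = a • (g • φ (τ y)) := by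
          intro a ha y
          obtain ⟨ha1, ha2⟩ := hA2 a ha
          have e1 : τ (a • y) = (⟨g⁻¹ * a * g, mem_IK.1 ha1⟩ : K) • τ y := hτe a ha1 y
          rw [e1, h3 _ ha2]
          show g • (g⁻¹ * (a : G) * g) • φ (τ y) = (a : G) • g • φ (τ y)
          rw [smul_smul, smul_smul]; congr 1; group
        refine ⟨i1, ?_, A', hA', i2⟩
        obtain ⟨j1, j2, -⟩ := hψ
        refine py_trans hX hY hM hA' (α := fun z : B₀ => g • (τ z : X)) hι i1
          (fun a _ => eι a) i2 j2.symm ?_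
        intro x y z
        rw [dist_smul, dist_smul]
        rw [h2 (τ x) (τ y) (τ z), hτ.dist_eq]
      have hlcp : ∀ φ : B₀ → X, LCp K (Subtype.val : B₀ → X) φ →
          LCp K (Subtype.val : B₀ → X) (fun y => g • φ (τ y)) := by
        rintro φ ⟨u, hu, hl⟩
        exact ⟨fun n y => g • u n (τ y), fun n => hcp _ (hu n),
          fun y => ((isometry_smul X g).continuous.tendsto _).comp (hl (τ y))⟩
      choose σ hσ using hτs
      refine ⟨fun φ => ⟨fun y => g • φ.1 (τ y), hlcp _ φ.2⟩, σ, fun x => ?_⟩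
      have e : ∀ z, F ((Equiv.ofBijective F hbij).symm z) = z := fun z =>
        (Equiv.ofBijective F hbij).apply_symm_apply z
      rw [Equiv.symm_apply_eq]
      show g • x = g • ((Equiv.ofBijective F hbij).symm x).1.1
        (τ (σ ((Equiv.ofBijective F hbij).symm x).2))
      rw [hσ]
      congr 1
      exact (e x).symm

end Pool.Agent.V7H77.CK
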