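import Pool.Agent.V7H77.CK.Core
import Pool.Agent.V7H77.CK.Equi

/-!
# The main theorem with the equivariant splitting
-/

set_option autoImplicit false

open Metric Set Filter Topology
open Pool.Agent.TH60.FP Pool.Agent.TH60.FP.Strip Pool.Agent.Y34.HB Pool.Agent.Y34.EL
open Pool.Agent.T6.H46.RR Pool.Agent.T6.H67.TA Pool.Agent.T6.H46.RC Pool.Agent.V7H57.RK

namespace Pool.Agent.V7H77.CK

variable {X : Type} [MetricSpace X] {G : Type} [Group G] [MulAction G X]

/-- the equivariant splitting -/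
def Spl (X : Type) [MetricSpace X] {G : Type} [Group G] [MulAction G X]
    (L : Subgroup G) : Prop :=
  ∃ B₀ : Set X, CC L B₀ ∧ B₀.Nontrivial ∧
    ∃ (Z : Type) (_ : MetricSpace Z) (_ : Nontrivial Z) (e : X ≃ Z × B₀),
      (∀ x x' : X, dist x x' ^ 2 = dist (e x).1 (e x').1 ^ 2 + dist (e x).2 (e x').2 ^ 2) ∧
      ∀ g : G, ∃ (a : Z → Z) (b : B₀ → B₀), Isometry a ∧ Isometry b ∧
        ∀ x, e (g • x) = (a (e x).1, b (e x).2)

/-- **Commensurated convex cocompact subgroups.** -/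
theorem comm' (hG : Geo X G) (hGC : GC X) {L : Subgroup G} {B : Set X} (hB : CC L B)
    (hL : ∀ g, Fi L g) : (L : Set G).Finite ∨ L.index ≠ 0 ∨ Spl X L := by
  have := hG.isom
  by_cases hfin : (L : Set G).Finite
  · exact Or.inl hfin
  right
  obtain ⟨B₀, hsub, h₀, h | ⟨Z, i1, i2, e, he, hg⟩⟩ := split_eq hG hGC hB
    (fun g => bd_of_index hG hB (hL g) (fun s hs => ((CI_pair L g s).1 hs).2))
  · exact Or.inl (index_univ hG h₀ h)
  · right
    have hnt : B₀.Nontrivial := by
      by_contra hcon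
      rw [Set.not_nontrivial_iff] at hcon
      obtain ⟨z, hz⟩ := h₀.ne
      refine hfin ((finite_short hG z 0).subset fun s hs => ?_)
      have h1 : s • z = z := hcon (h₀.inv s hs z hz) hz
      show dist z (s • z) ≤ 0
      rw [h1, dist_self]
    refine ⟨B₀, h₀, hnt, Z, i1, i2, e, he, fun g => ?_⟩
    obtain ⟨a, b, hab⟩ := hg g
    obtain ⟨y, hy⟩ := h₀.ne
    obtain ⟨z, -⟩ := exists_pair_ne Z
    refine ⟨a, b, ?_, ?_, hab⟩
    · refine Isometry.of_dist_eq fun u v => ?_
      have h1 := he (g • e.symm (u, ⟨y, hy⟩)) (g • e.symm (v, ⟨y, hy⟩))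
      have h2 := he (e.symm (u, ⟨y, hy⟩)) (e.symm (v, ⟨y, hy⟩))
      rw [hab, hab, dist_smul] at h1
      rw [h1] at h2
      simp only [Equiv.apply_symm_apply, dist_self] at h2
      have h3 : dist (a u) (a v) ^ 2 = dist u v ^ 2 := by linarith
      exact (pow_left_inj₀ dist_nonneg dist_nonneg two_ne_zero).1 h3
    · refine Isometry.of_dist_eq fun u v => ?_
      have h1 := he (g • e.symm (z, u)) (g • e.symm (z, v))
      have h2 := he (e.symm (z, u)) (e.symm (z, v))
      rw [hab, hab, dist_smul] at h1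
      rw [h1] at h2
      simp only [Equiv.apply_symm_apply, dist_self] at h2
      have h3 : dist (b u) (b v) ^ 2 = dist u v ^ 2 := by linarith
      exact (pow_left_inj₀ dist_nonneg dist_nonneg two_ne_zero).1 h3

/-- **Main theorem.** -/
theorem main' (hG : Geo X G) (hGC : GC X) {K : Subgroup G} {B : Set X} (hB : CC K B)
    (hch : Chn K) : ∃ F : Set G, F.Finite ∧ 1 ∈ F ∧ (∀ g, Fi (CI K F) g) ∧
      ((CI K F : Set G).Finite ∨ K.index ≠ 0 ∨ Spl X (CI K F)) := by
  obtain ⟨F, h1, h2, ⟨B', hB', hcc⟩, hF⟩ := exists_comm hG hB hch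
  refine ⟨F, h1, h2, hF, ?_⟩
  rcases comm' hG hGC hcc hF with h | h | h
  · exact Or.inl h
  · refine Or.inr (Or.inl fun h3 => h ?_)
    have hle : CI K F ≤ K := by
      have h4 := CI_anti K (F := {1}) (F' := F) (by simpa using h2)
      rwa [CI_one] at h4
    exact Nat.eq_zero_of_zero_dvd (h3 ▸ Subgroup.index_dvd_of_le hle)
  · exact Or.inr (Or.inr h)

end Pool.Agent.V7H77.CK
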